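import Mathlib

set_option autoImplicit false

/-!
# The integers of the lower levels are computed from those of the higher levels
-/

namespace Pool.Agent.N564.GW

open Filter Topology MeasureTheory

/-- floors which differ -/
theorem exists_v {A B η : ℝ} (hAB : A ≤ B) (hB : B < A + η) (h : ⌊B⌋₊ ≠ ⌊A⌋₊) :
    ∃ v : ℕ, (v : ℝ) ≤ B ∧ B < v + η := by
  have h1 : ⌊A⌋₊ < ⌊B⌋₊ := lt_of_le_of_ne (Nat.floor_mono hAB) (Ne.symm h)
  refine ⟨⌊B⌋₊, ?_, ?_⟩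
  · apply Nat.floor_le
    by_contra h2
    rw [Nat.floor_of_nonpos (not_le.mp h2).le] at h1
    omega
  · have h2 : A < (⌊B⌋₊ : ℝ) := Nat.lt_of_floor_lt h1
    linarith

/-- the measure of the bad set of one exponent -/
theorem bad_one (c G R η : ℝ) (hc : 1 ≤ c) (hG : 0 ≤ G) (hR : 0 ≤ R) (hη : 0 ≤ η) (g : ℝ)
    (hg : |g| ≤ G) :
    volume {β : ℝ | β ≤ R ∧ ∃ v : ℕ, (v : ℝ) ≤ β * c + g ∧ β * c + g < v + η} ≤
      ENNReal.ofReal ((R + G + 1) * η) := by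
  have hc0 : 0 < c := by linarith
  have hRG : 0 ≤ R * c + G := by positivity
  have h1 : {β : ℝ | β ≤ R ∧ ∃ v : ℕ, (v : ℝ) ≤ β * c + g ∧ β * c + g < v + η} ⊆
      ⋃ v ∈ Finset.range (⌊R * c + G⌋₊ + 1), Set.Icc (((v : ℝ) - g) / c) ((v + η - g) / c) := by
    rintro β ⟨hβ, v, hv1, hv2⟩
    simp only [Set.mem_iUnion, Finset.mem_range, Set.mem_Icc]
    refine ⟨v, ?_, ?_, ?_⟩
    · rw [Nat.lt_succ_iff, Nat.le_floor_iff hRG]
      have h2 : β * c ≤ R * c := mul_le_mul_of_nonneg_right hβ hc0.le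
      linarith [le_abs_self g]
    · rw [div_le_iff₀ hc0]; linarith
    · rw [le_div_iff₀ hc0]; linarith
  refine (measure_mono h1).trans ((measure_biUnion_finset_le _ _).trans ?_)
  have h2 : ∀ v : ℕ, volume (Set.Icc (((v : ℝ) - g) / c) ((v + η - g) / c)) =
      ENNReal.ofReal (η / c) := by
    intro v
    rw [Real.volume_Icc]
    congr 1
    field_simp
    ring
  rw [Finset.sum_congr rfl fun v _ => h2 v, Finset.sum_const, Finset.card_range, nsmul_eq_mul,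
    ← ENNReal.ofReal_natCast, ← ENNReal.ofReal_mul (Nat.cast_nonneg _)]
  apply ENNReal.ofReal_le_ofReal
  have h3 : (⌊R * c + G⌋₊ : ℝ) ≤ R * c + G := Nat.floor_le hRG
  push_cast
  rw [← mul_div_assoc, div_le_iff₀ hc0]
  have h4 : (⌊R * c + G⌋₊ : ℝ) + 1 ≤ (R + G + 1) * c := by nlinarith
  nlinarith

theorem summ (α : ℝ) (hα : 1 < α) (C : ℝ) :
    Summable fun i : ℕ => (2 : ℝ) ^ i * (C * (α ^ (2 ^ (i + 1)))⁻¹) := by
  have h1 : Summable fun n : ℕ => ((n : ℝ) ^ 1 * ((α ^ 2)⁻¹) ^ n : ℝ) := by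
    apply summable_pow_mul_geometric_of_norm_lt_one
    rw [Real.norm_eq_abs, abs_inv, abs_of_pos (by positivity)]
    exact inv_lt_one_of_one_lt₀ (one_lt_pow₀ hα two_ne_zero)
  have h2 : Function.Injective fun i : ℕ => 2 ^ i := Nat.pow_right_injective (le_refl 2)
  have h3 := (h1.comp_injective h2).mul_left C
  refine h3.congr fun i => ?_
  simp only [Function.comp]
  push_cast
  rw [pow_one, inv_pow, ← pow_mul]
  have : 2 * 2 ^ i = 2 ^ (i + 1) := by ring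
  rw [this]
  ring

theorem agr_raw (α : ℝ) (hα : 1 < α) (g : ℕ → ℝ) (hg : ∃ G : ℝ, ∀ p, |g p| ≤ G) :
    ∀ᵐ β : ℝ, 0 < β → ∀ᶠ i : ℕ in atTop, ∀ p ∈ Finset.Ioc (2 ^ i) (2 ^ (i + 1)),
      ⌊β * α ^ p + g p⌋₊ =
        ⌊((⌊β * α ^ (2 ^ (i + 2))⌋₊ : ℕ) : ℝ) / α ^ (2 ^ (i + 2) - p) + g p⌋₊ := by
  obtain ⟨G, hG⟩ := hg
  have hG0 : 0 ≤ G := (abs_nonneg _).trans (hG 0)
  have hα0 : 0 < α := by linarith
  let Q : ℕ → ℕ → ℝ → Prop := fun R i β => (0 < β ∧ β ≤ R) ∧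
    ∃ p ∈ Finset.Ioc (2 ^ i) (2 ^ (i + 1)), ⌊β * α ^ p + g p⌋₊ ≠
        ⌊((⌊β * α ^ (2 ^ (i + 2))⌋₊ : ℕ) : ℝ) / α ^ (2 ^ (i + 2) - p) + g p⌋₊
  have hQ : ∀ R i : ℕ, volume {β : ℝ | Q R i β} ≤
      ENNReal.ofReal ((2 : ℝ) ^ i * ((R + G + 1) * (α ^ (2 ^ (i + 1)))⁻¹)) := by
    intro R i
    have h1 : {β : ℝ | Q R i β} ⊆ ⋃ p ∈ Finset.Ioc (2 ^ i) (2 ^ (i + 1)),
        {β : ℝ | β ≤ R ∧ ∃ v : ℕ, (v : ℝ) ≤ β * α ^ p + g p ∧
          β * α ^ p + g p < v + (α ^ (2 ^ (i + 1)))⁻¹} := by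
      rintro β ⟨⟨hβ0, hβR⟩, p, hp, hne⟩
      simp only [Set.mem_iUnion]
      refine ⟨p, hp, hβR, ?_⟩
      rw [Finset.mem_Ioc] at hp
      set t := 2 ^ (i + 2) with ht
      have ht2 : t = 2 ^ (i + 1) + 2 ^ (i + 1) := by rw [ht]; ring
      have hpt : p + (t - p) = t := by omega
      have htp : 2 ^ (i + 1) ≤ t - p := by omega
      have hpos : 0 < α ^ (t - p) := pow_pos hα0 _
      have hm1 : ((⌊β * α ^ t⌋₊ : ℕ) : ℝ) ≤ β * α ^ t := Nat.floor_le (by positivity)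
      have hm2 : β * α ^ t < (⌊β * α ^ t⌋₊ : ℕ) + 1 := Nat.lt_floor_add_one _
      have e1 : β * α ^ t = β * α ^ p * α ^ (t - p) := by
        rw [mul_assoc, ← pow_add, hpt]
      have k1 : ((⌊β * α ^ t⌋₊ : ℕ) : ℝ) / α ^ (t - p) ≤ β * α ^ p := by
        rw [div_le_iff₀ hpos, ← e1]; exact hm1
      have k2 : β * α ^ p < ((⌊β * α ^ t⌋₊ : ℕ) : ℝ) / α ^ (t - p) + (α ^ (t - p))⁻¹ := by
        rw [← one_div, ← add_div, lt_div_iff₀ hpos, ← e1]; exact hm2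
      have k3 : (α ^ (t - p))⁻¹ ≤ (α ^ (2 ^ (i + 1)))⁻¹ :=
        inv_anti₀ (pow_pos hα0 _) (pow_le_pow_right₀ hα.le htp)
      exact exists_v (A := ((⌊β * α ^ t⌋₊ : ℕ) : ℝ) / α ^ (t - p) + g p) (by linarith)
        (by linarith) hne
    refine (measure_mono h1).trans ((measure_biUnion_finset_le _ _).trans ?_)
    calc ∑ p ∈ Finset.Ioc (2 ^ i) (2 ^ (i + 1)), volume {β : ℝ | β ≤ R ∧ ∃ v : ℕ,
          (v : ℝ) ≤ β * α ^ p + g p ∧ β * α ^ p + g p < v + (α ^ (2 ^ (i + 1)))⁻¹}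
        ≤ ∑ _p ∈ Finset.Ioc (2 ^ i) (2 ^ (i + 1)),
          ENNReal.ofReal ((R + G + 1) * (α ^ (2 ^ (i + 1)))⁻¹) :=
          Finset.sum_le_sum fun p _ => bad_one (α ^ p) G R _ (one_le_pow₀ hα.le) hG0
            (Nat.cast_nonneg R) (by positivity) (g p) (hG p)
      _ = ENNReal.ofReal ((2 : ℝ) ^ i * ((R + G + 1) * (α ^ (2 ^ (i + 1)))⁻¹)) := by
          rw [Finset.sum_const, Nat.card_Ioc, nsmul_eq_mul]
          have e2 : 2 ^ (i + 1) - 2 ^ i = 2 ^ i := by rw [pow_succ]; omega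
          rw [e2, ← ENNReal.ofReal_natCast, ← ENNReal.ofReal_mul (Nat.cast_nonneg _)]
          push_cast
          rfl
  have hR : ∀ R : ℕ, ∀ᵐ β : ℝ, ∀ᶠ i : ℕ in atTop, ¬ Q R i β := by
    intro R
    have h1 : ∑' i, volume {β : ℝ | Q R i β} ≠ ⊤ := by
      refine ne_top_of_le_ne_top ?_ (ENNReal.tsum_le_tsum fun i => hQ R i)
      exact (summ α hα (R + G + 1)).tsum_ofReal_ne_top
    have h2 := measure_setOfPred_frequently_eq_zero h1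
    rw [ae_iff]
    have h3 : {β : ℝ | ¬ ∀ᶠ i : ℕ in atTop, ¬ Q R i β} = {β : ℝ | ∃ᶠ i : ℕ in atTop, Q R i β} := by
      ext β
      simp only [Set.mem_setOf_eq, Filter.not_eventually, not_not]
    rw [h3]
    exact h2
  rw [← ae_all_iff] at hR
  filter_upwards [hR] with β hβ hβ0
  obtain ⟨R, hRβ⟩ := exists_nat_ge β
  filter_upwards [hβ R] with i hi p hp
  by_contra hne
  exact hi ⟨⟨hβ0, hRβ⟩, p, hp, hne⟩

end Pool.Agent.N564.GW
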