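import Pool.Agent.N176.GW.Stm
import Pool.Agent.N564.GW.AGRraw

set_option autoImplicit false

/-!
# The integers of the lower levels are computed from those of the higher levels
-/

namespace Pool.Agent.N564.GW

theorem agr (α : ℝ) (hα : 1 < α) (g : ℕ → ℝ) (hg : ∃ G : ℝ, ∀ p, |g p| ≤ G) :
    Pool.Agent.N176.GW.S_AGR α g := agr_raw α hα g hg

end Pool.Agent.N564.GW
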